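import Mathlib

/-!
# Limit chain points of a semiflow and of its time-`T` map

For every jointly continuous semiflow on a metric space and every `T > 0`, the point `y` is a limit
chain point of `x` for the semiflow if and only if it is one for the time-`T` map.

Proof. (⇒) Sample a long chain of the semiflow at the multiples of `τ / N`, where `N` is the integer
part of `τ / T`; the error in the time step tends to zero.  (⇐) Fill the jumps of a chain of the
map by orbit pieces; a bounded number of small jumps has a small effect over a time at most one.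
-/

set_option autoImplicit false

namespace Pool.Agent.Results.MP_f2fc76_an.TimeTMap

open Set Filter Topology

variable {X : Type*} [MetricSpace X]

/-- A (jointly continuous) semiflow on `X`; only the values `F t` with `0 ≤ t` matter. -/
structure IsSemiflow (F : ℝ → X → X) : Prop where
  cont : ContinuousOn (fun p : ℝ × X => F p.1 p.2) (Ici 0 ×ˢ univ)
  zero : ∀ x, F 0 x = x
  add : ∀ s t : ℝ, 0 ≤ s → 0 ≤ t → ∀ x, F (s + t) x = F s (F t x)

/-- `z : [0, τ] → X` is piecewise continuous: it is continuous outside a finite set and the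
one-sided limits exist everywhere. -/
def PiecewiseCont (τ : ℝ) (z : ℝ → X) : Prop :=
  (∃ S : Finset ℝ, ∀ t ∈ Icc 0 τ, t ∉ S → ContinuousWithinAt z (Icc 0 τ) t) ∧
    (∀ t ∈ Ico 0 τ, ∃ l, Tendsto z (𝓝[>] t) (𝓝 l)) ∧
    (∀ t ∈ Ioc 0 τ, ∃ l, Tendsto z (𝓝[<] t) (𝓝 l))

/-- `z : [0, τ] → X` is an `ε`-chain of the semiflow `F` from `x` to `y` contained in `K`. -/
def FlowChain (F : ℝ → X → X) (K : Set X) (ε τ : ℝ) (z : ℝ → X) (x y : X) : Prop :=
  1 ≤ τ ∧ PiecewiseCont τ z ∧ z 0 = x ∧ z τ = y ∧ (∀ t ∈ Icc 0 τ, z t ∈ K) ∧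
    ∀ t₀ t₁ : ℝ, 0 ≤ t₀ → t₀ < t₁ → t₁ ≤ τ → t₁ - t₀ ≤ 1 →
      dist (F (t₁ - t₀) (z t₀)) (z t₁) < ε

/-- `z 0, …, z n` (`n ≥ 1`) is an `ε`-chain of the map `g` from `x` to `y` contained in `K`, of
duration `n`. -/
def MapChain (g : X → X) (K : Set X) (ε : ℝ) (n : ℕ) (z : ℕ → X) (x y : X) : Prop :=
  1 ≤ n ∧ z 0 = x ∧ z n = y ∧ (∀ i ≤ n, z i ∈ K) ∧ ∀ i < n, dist (g (z i)) (z (i + 1)) < ε

/-- `y` is a limit chain point of `x` for the semiflow `F`: there are a compact `K` and, for every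
`ε > 0`, an `ε`-chain from `x` to `y` in `K` of duration `τ ε`, with `τ ε → ∞` as `ε → 0`. -/
def FlowLimitChain (F : ℝ → X → X) (x y : X) : Prop :=
  ∃ K : Set X, IsCompact K ∧ ∃ τ : ℝ → ℝ, Tendsto τ (𝓝[>] 0) atTop ∧
    ∀ ε > 0, ∃ z : ℝ → X, FlowChain F K ε (τ ε) z x y

/-- `y` is a limit chain point of `x` for the map `g`. -/
def MapLimitChain (g : X → X) (x y : X) : Prop :=
  ∃ K : Set X, IsCompact K ∧ ∃ n : ℝ → ℕ, Tendsto n (𝓝[>] 0) atTop ∧
    ∀ ε > 0, ∃ z : ℕ → X, MapChain g K ε (n ε) z x y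

lemma flowLimitChain_iff (F : ℝ → X → X) (x y : X) :
    FlowLimitChain F x y ↔ ∃ K : Set X, IsCompact K ∧ ∀ ε > 0, ∀ M : ℝ, ∃ τ : ℝ, M ≤ τ ∧
      ∃ z : ℝ → X, FlowChain F K ε τ z x y := by
  constructor
  · rintro ⟨K, hK, τ, hτ, h⟩
    refine ⟨K, hK, fun ε hε M => ?_⟩
    have h1 : ∀ᶠ e in 𝓝[>] (0 : ℝ), M ≤ τ e := hτ.eventually_ge_atTop M
    have h2 : ∀ᶠ e in 𝓝[>] (0 : ℝ), e ∈ Ioo (0 : ℝ) ε := Ioo_mem_nhdsGT hε
    obtain ⟨e, he1, he2⟩ := (h1.and h2).exists
    obtain ⟨z, hz⟩ := h e he2.1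
    refine ⟨τ e, he1, z, hz.1, hz.2.1, hz.2.2.1, hz.2.2.2.1, hz.2.2.2.2.1, ?_⟩
    intro t₀ t₁ a b c d
    exact (hz.2.2.2.2.2 t₀ t₁ a b c d).trans he2.2
  · rintro ⟨K, hK, h⟩
    refine ⟨K, hK, ?_⟩
    choose! τ hτ hz using fun (ε : ℝ) (hε : ε > 0) => h ε hε (1 / ε)
    refine ⟨τ, ?_, hz⟩
    have : Tendsto (fun ε : ℝ => 1 / ε) (𝓝[>] 0) atTop := by
      simpa using tendsto_inv_nhdsGT_zero (𝕜 := ℝ)
    exact tendsto_atTop_mono' _ (eventually_nhdsWithin_of_forall fun ε hε => hτ ε hε) this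

lemma mapLimitChain_iff (g : X → X) (x y : X) :
    MapLimitChain g x y ↔ ∃ K : Set X, IsCompact K ∧ ∀ ε > 0, ∀ M : ℕ, ∃ n : ℕ, M ≤ n ∧
      ∃ z : ℕ → X, MapChain g K ε n z x y := by
  constructor
  · rintro ⟨K, hK, τ, hτ, h⟩
    refine ⟨K, hK, fun ε hε M => ?_⟩
    have h1 : ∀ᶠ e in 𝓝[>] (0 : ℝ), M ≤ τ e := hτ.eventually_ge_atTop M
    have h2 : ∀ᶠ e in 𝓝[>] (0 : ℝ), e ∈ Ioo (0 : ℝ) ε := Ioo_mem_nhdsGT hε
    obtain ⟨e, he1, he2⟩ := (h1.and h2).exists
    obtain ⟨z, hz⟩ := h e he2.1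
    refine ⟨τ e, he1, z, hz.1, hz.2.1, hz.2.2.1, hz.2.2.2.1, ?_⟩
    intro i hi
    exact (hz.2.2.2.2 i hi).trans he2.2
  · rintro ⟨K, hK, h⟩
    refine ⟨K, hK, ?_⟩
    choose! τ hτ hz using fun (ε : ℝ) (hε : ε > 0) => h ε hε ⌈1 / ε⌉₊
    refine ⟨τ, ?_, hz⟩
    have h1 : Tendsto (fun ε : ℝ => 1 / ε) (𝓝[>] 0) atTop := by
      simpa using tendsto_inv_nhdsGT_zero (𝕜 := ℝ)
    have h2 : Tendsto (fun ε : ℝ => ⌈1 / ε⌉₊) (𝓝[>] 0) atTop := tendsto_nat_ceil_atTop.comp h1
    exact tendsto_atTop_mono' _ (eventually_nhdsWithin_of_forall fun ε hε => hτ ε hε) h2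

/-- The extension of a semiflow to all times. -/
lemma cont_ext {F : ℝ → X → X} (hF : IsSemiflow F) :
    Continuous (fun p : ℝ × X => F (max p.1 0) p.2) := by
  have h : Continuous (fun p : ℝ × X => ((max p.1 0, p.2) : ℝ × X)) := by fun_prop
  exact hF.cont.comp_continuous h (fun p => ⟨mem_Ici.mpr (le_max_right _ _), mem_univ _⟩)

/-- Uniform continuity near a compact set. -/
lemma unif {F : ℝ → X → X} (hF : IsSemiflow F) {K : Set X} (hK : IsCompact K) (R η : ℝ)
    (hη : 0 < η) : ∃ ρ > 0, ∀ b ∈ K, ∀ a : X, ∀ r r' : ℝ, 0 ≤ r → r ≤ R → 0 ≤ r' →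
      dist a b < ρ → |r - r'| < ρ → dist (F r' a) (F r b) < η := by
  have hs : IsCompact (Icc (0 : ℝ) R ×ˢ K) := isCompact_Icc.prod hK
  have h := hs.uniformContinuousAt_of_continuousAt (r := {p : X × X | dist p.1 p.2 < η})
    (fun p : ℝ × X => F (max p.1 0) p.2) (fun a _ => (cont_ext hF).continuousAt)
    (Metric.dist_mem_uniformity hη)
  obtain ⟨ρ, hρ, hsub⟩ := Metric.mem_uniformity_dist.mp h
  refine ⟨ρ, hρ, fun b hb a r r' hr hrR hr' hab hrr => ?_⟩
  have hd : dist ((r, b) : ℝ × X) (r', a) < ρ := by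
    rw [Prod.dist_eq, max_lt_iff]
    exact ⟨by rw [Real.dist_eq]; exact hrr, by rw [dist_comm]; exact hab⟩
  have := hsub hd ⟨⟨hr, hrR⟩, hb⟩
  simp only [mem_ofPred_eq, max_eq_left hr, max_eq_left hr'] at this
  rw [dist_comm]
  exact this

/-- Propagation of the error of a chain of the semiflow over a time at most `m`. -/
lemma flow_prop {F : ℝ → X → X} (hF : IsSemiflow F) {K : Set X} (hK : IsCompact K) (m : ℕ) :
    ∀ η > 0, ∃ e > 0, ∀ ε ≤ e, ∀ (τ : ℝ) (z : ℝ → X) (x y : X), FlowChain F K ε τ z x y →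
      ∀ s₀ s₁ : ℝ, 0 ≤ s₀ → s₀ ≤ s₁ → s₁ ≤ τ → s₁ - s₀ ≤ m →
        dist (F (s₁ - s₀) (z s₀)) (z s₁) < η := by
  induction m with
  | zero =>
    intro η hη
    refine ⟨1, one_pos, fun ε _ τ z x y _ s₀ s₁ h0 h1 h2 h3 => ?_⟩
    have h : s₁ = s₀ := le_antisymm (by simpa using h3) h1
    rw [h, sub_self, hF.zero, dist_self]
    exact hη
  | succ m ih =>
    intro η hη
    obtain ⟨ρ, hρ, hu⟩ := unif hF hK 1 (η / 2) (by positivity)
    obtain ⟨e1, he1, h1⟩ := ih (min ρ η) (lt_min hρ hη)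
    refine ⟨min e1 (η / 2), lt_min he1 (by positivity), ?_⟩
    intro ε hε τ z x y hz s₀ s₁ h0 h01 h1τ hm
    by_cases hsm : s₁ - s₀ ≤ m
    · exact (h1 ε (hε.trans (min_le_left _ _)) τ z x y hz s₀ s₁ h0 h01 h1τ hsm).trans_le
        (min_le_right _ _)
    · push Not at hsm
      by_cases hs1 : s₁ - s₀ ≤ 1
      · have hlt : s₀ < s₁ := by
          rcases h01.lt_or_eq with h | h
          · exact h
          · exfalso
            rw [h, sub_self] at hsm
            exact absurd hsm (not_lt.mpr (Nat.cast_nonneg m))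
        have := hz.2.2.2.2.2 s₀ s₁ h0 hlt h1τ hs1
        have h2 := hε.trans (min_le_right _ _)
        linarith
      · push Not at hs1
        have hs' : s₀ ≤ s₁ - 1 := by linarith
        push_cast at hm
        have hA := h1 ε (hε.trans (min_le_left _ _)) τ z x y hz s₀ (s₁ - 1) h0 hs'
          (by linarith) (by linarith)
        have hB := hu (z (s₁ - 1)) (hz.2.2.2.2.1 _ ⟨by linarith, by linarith⟩)
          (F (s₁ - 1 - s₀) (z s₀)) 1 1 zero_le_one le_rfl zero_le_one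
          (hA.trans_le (min_le_left _ _)) (by simpa using hρ)
        have hC := hz.2.2.2.2.2 (s₁ - 1) s₁ (by linarith) (by linarith) h1τ (by linarith)
        have hadd : F 1 (F (s₁ - 1 - s₀) (z s₀)) = F (s₁ - s₀) (z s₀) := by
          rw [← hF.add 1 (s₁ - 1 - s₀) zero_le_one (by linarith)]
          congr 1
          ring
        rw [hadd] at hB
        have h11 : s₁ - (s₁ - 1) = 1 := by ring
        rw [h11] at hC
        have h2 := hε.trans (min_le_right _ _)
        calc dist (F (s₁ - s₀) (z s₀)) (z s₁)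
            ≤ dist (F (s₁ - s₀) (z s₀)) (F 1 (z (s₁ - 1))) + dist (F 1 (z (s₁ - 1))) (z s₁) :=
              dist_triangle _ _ _
          _ < η := by linarith

/-- Propagation of the error of a chain of the time-`T` map. -/
lemma map_prop {F : ℝ → X → X} (hF : IsSemiflow F) {T : ℝ} (hT : 0 < T) {K : Set X}
    (hK : IsCompact K) (m : ℕ) :
    ∀ η > 0, ∃ e > 0, ∀ ε ≤ e, ∀ (n : ℕ) (z : ℕ → X) (x y : X), MapChain (F T) K ε n z x y →
      ∀ k ≤ m, ∀ i, i + k ≤ n → dist (F (k * T) (z i)) (z (i + k)) < η := by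
  induction m with
  | zero =>
    intro η hη
    refine ⟨1, one_pos, fun ε _ n z x y _ k hk i _ => ?_⟩
    obtain rfl : k = 0 := by omega
    simpa [hF.zero] using hη
  | succ m ih =>
    intro η hη
    obtain ⟨ρ, hρ, hu⟩ := unif hF hK T (η / 2) (by positivity)
    obtain ⟨e1, he1, h1⟩ := ih (min ρ η) (lt_min hρ hη)
    refine ⟨min e1 (η / 2), lt_min he1 (by positivity), ?_⟩
    intro ε hε n z x y hz k hk i hik
    rcases Nat.lt_or_ge m k with hmk | hmk
    · obtain rfl : k = m + 1 := by omega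
      have hA := h1 ε (hε.trans (min_le_left _ _)) n z x y hz m le_rfl i (by omega)
      have hB := hu (z (i + m)) (hz.2.2.2.1 _ (by omega)) (F (m * T) (z i)) T T hT.le le_rfl hT.le
        (hA.trans_le (min_le_left _ _)) (by simpa using hρ)
      have hC := hz.2.2.2.2 (i + m) (by omega)
      have hadd : F T (F (m * T) (z i)) = F (((m + 1 : ℕ) : ℝ) * T) (z i) := by
        rw [← hF.add T (m * T) hT.le (by positivity)]
        congr 1
        push_cast
        ring
      rw [hadd] at hB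
      have h2 := hε.trans (min_le_right _ _)
      calc dist (F (((m + 1 : ℕ) : ℝ) * T) (z i)) (z (i + (m + 1)))
          ≤ dist (F (((m + 1 : ℕ) : ℝ) * T) (z i)) (F T (z (i + m)))
            + dist (F T (z (i + m))) (z (i + m + 1)) := dist_triangle _ _ _
        _ < η := by linarith
    · exact (h1 ε (hε.trans (min_le_left _ _)) n z x y hz k hmk i hik).trans_le
        (min_le_right _ _)

theorem forward {F : ℝ → X → X} (hF : IsSemiflow F) {T : ℝ} (hT : 0 < T) (x y : X)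
    (h : FlowLimitChain F x y) : MapLimitChain (F T) x y := by
  rw [flowLimitChain_iff] at h
  rw [mapLimitChain_iff]
  obtain ⟨K, hK, h⟩ := h
  refine ⟨K, hK, fun e he M => ?_⟩
  obtain ⟨δ, hδ, hu⟩ := unif hF hK T (e / 2) (by positivity)
  obtain ⟨L, hL⟩ := exists_nat_ge (T + δ)
  obtain ⟨ε₀, hε₀, hp⟩ := flow_prop hF hK L (e / 2) (by positivity)
  obtain ⟨N₁, hN₁⟩ := exists_nat_ge (2 * T / δ)
  set N₀ : ℕ := max (max M N₁) 1 with hN₀
  obtain ⟨τ, hτ, z, hz⟩ := h ε₀ hε₀ (N₀ * T)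
  set N : ℕ := ⌊τ / T⌋₊ with hN
  have hNN : N₀ ≤ N := Nat.le_floor (by rw [le_div_iff₀ hT]; exact hτ)
  have hN1 : 1 ≤ N := (le_max_right _ _).trans hNN
  have hτ0 : 0 ≤ τ := le_trans (by positivity) hτ
  have hNpos : (0 : ℝ) < N := by exact_mod_cast hN1
  have hNle : (N : ℝ) * T ≤ τ := by
    rw [← le_div_iff₀ hT]
    exact Nat.floor_le (by positivity)
  have hNlt : τ < (N + 1 : ℝ) * T := by
    rw [← div_lt_iff₀ hT]
    exact Nat.lt_floor_add_one _
  set s : ℕ → ℝ := fun i => i * (τ / N) with hs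
  have hstep : τ / N - T < δ := by
    have h1 : τ / N < T + T / N := by
      rw [div_lt_iff₀ hNpos]
      have : (T + T / N) * N = (N + 1) * T := by field_simp
      rw [this]; exact hNlt
    have h2 : T / N < δ := by
      rw [div_lt_iff₀ hNpos]
      have h3 : (N₁ : ℝ) ≤ N := by
        exact_mod_cast ((le_max_right _ _).trans (le_max_left _ _)).trans hNN
      have h4 : 2 * T / δ ≤ N := hN₁.trans h3
      rw [div_le_iff₀ hδ] at h4
      nlinarith
    linarith
  have hstep0 : T ≤ τ / N := by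
    rw [le_div_iff₀ hNpos]
    linarith
  refine ⟨N, (le_max_left _ _).trans ((le_max_left _ _).trans hNN), fun i => z (s i), hN1, ?_, ?_,
    ?_, ?_⟩
  · simpa [hs] using hz.2.2.1
  · have : s N = τ := by simp only [hs]; field_simp
    show z (s N) = y
    rw [this]
    exact hz.2.2.2.1
  · intro i hi
    refine hz.2.2.2.2.1 _ ⟨by positivity, ?_⟩
    have hi' : (i : ℝ) ≤ N := by exact_mod_cast hi
    calc (i : ℝ) * (τ / N) ≤ N * (τ / N) := by
          exact mul_le_mul_of_nonneg_right hi' (by positivity)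
      _ = τ := by field_simp
  · intro i hi
    have hi' : ((i + 1 : ℕ) : ℝ) ≤ N := by exact_mod_cast hi
    have hle : s (i + 1) ≤ τ := by
      calc ((i + 1 : ℕ) : ℝ) * (τ / N) ≤ N * (τ / N) := by
            exact mul_le_mul_of_nonneg_right hi' (by positivity)
        _ = τ := by field_simp
    have hsi : 0 ≤ s i := by positivity
    have hdiff : s (i + 1) - s i = τ / N := by simp only [hs]; push_cast; ring
    have hlt : s i ≤ s (i + 1) := by
      have : 0 ≤ τ / N := by positivity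
      linarith
    have hA := hp ε₀ le_rfl τ z x y hz (s i) (s (i + 1)) hsi hlt hle (by rw [hdiff]; linarith)
    have hzi : z (s i) ∈ K := hz.2.2.2.2.1 _ ⟨hsi, hlt.trans hle⟩
    have hB := hu (z (s i)) hzi (z (s i)) T (s (i + 1) - s i) hT.le le_rfl (by linarith)
      (by simpa using hδ) (by rw [hdiff, abs_lt]; constructor <;> linarith)
    rw [dist_comm] at hB
    calc dist (F T (z (s i))) (z (s (i + 1)))
        ≤ dist (F T (z (s i))) (F (s (i + 1) - s i) (z (s i)))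
          + dist (F (s (i + 1) - s i) (z (s i))) (z (s (i + 1))) := dist_triangle _ _ _
      _ < e := by linarith

/-- The curve which follows the orbit of `w i` on `[i T, (i + 1) T)`. -/
noncomputable def curve (F : ℝ → X → X) (T : ℝ) (w : ℕ → X) (t : ℝ) : X :=
  F (t - ⌊t / T⌋₊ * T) (w ⌊t / T⌋₊)

omit [MetricSpace X] in
lemma curve_eq (F : ℝ → X → X) {T : ℝ} (hT : 0 < T) (w : ℕ → X) {t : ℝ} {i : ℕ}
    (h1 : i * T ≤ t) (h2 : t < (i + 1) * T) : curve F T w t = F (t - i * T) (w i) := by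
  have : ⌊t / T⌋₊ = i := by
    rw [Nat.floor_eq_iff (by have : 0 ≤ (i : ℝ) * T := by positivity
                             exact div_nonneg (this.trans h1) hT.le)]
    exact ⟨by rwa [le_div_iff₀ hT], by rwa [div_lt_iff₀ hT]⟩
  rw [curve, this]

lemma floor_bounds {T t : ℝ} (hT : 0 < T) (ht : 0 ≤ t) :
    (⌊t / T⌋₊ : ℝ) * T ≤ t ∧ t < ((⌊t / T⌋₊ : ℝ) + 1) * T := by
  constructor
  · rw [← le_div_iff₀ hT]
    exact Nat.floor_le (by positivity)
  · rw [← div_lt_iff₀ hT]
    exact Nat.lt_floor_add_one _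

lemma curve_cont {F : ℝ → X → X} (hF : IsSemiflow F) {T : ℝ} (w : ℕ → X) (i : ℕ) :
    Continuous (fun t : ℝ => F (max (t - i * T) 0) (w i)) := by
  have : Continuous (fun t : ℝ => ((t - i * T, w i) : ℝ × X)) := by fun_prop
  exact (cont_ext hF).comp this

lemma curve_piecewise {F : ℝ → X → X} (hF : IsSemiflow F) {T : ℝ} (hT : 0 < T) (w : ℕ → X)
    (n : ℕ) : PiecewiseCont (n * T) (curve F T w) := by
  refine ⟨⟨(Finset.range (n + 1)).image (fun i : ℕ => (i : ℝ) * T), ?_⟩, ?_, ?_⟩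
  · intro t ht htS
    obtain ⟨h1, h2⟩ := floor_bounds hT ht.1
    set i := ⌊t / T⌋₊ with hi
    have hne : (i : ℝ) * T ≠ t := by
      intro heq
      apply htS
      rw [Finset.mem_image]
      refine ⟨i, ?_, heq⟩
      rw [Finset.mem_range, Nat.lt_succ_iff]
      have : (i : ℝ) * T ≤ n * T := heq.le.trans ht.2
      exact_mod_cast le_of_mul_le_mul_right this hT
    have h1' : (i : ℝ) * T < t := lt_of_le_of_ne h1 hne
    have hc : ContinuousAt (curve F T w) t := by
      refine (curve_cont hF w i).continuousAt.congr (f := fun t : ℝ => F (max (t - i * T) 0) (w i)) ?_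
      filter_upwards [Ioo_mem_nhds h1' h2] with s hs
      rw [curve_eq F hT w hs.1.le hs.2, max_eq_left (by linarith [hs.1])]
    exact hc.continuousWithinAt
  · intro t ht
    obtain ⟨h1, h2⟩ := floor_bounds hT ht.1
    set i := ⌊t / T⌋₊ with hi
    refine ⟨F (max (t - i * T) 0) (w i), ?_⟩
    have hc : Tendsto (fun t : ℝ => F (max (t - i * T) 0) (w i)) (𝓝[>] t)
        (𝓝 (F (max (t - i * T) 0) (w i))) :=
      ((curve_cont hF w i).tendsto t).mono_left nhdsWithin_le_nhds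
    refine hc.congr' ?_
    filter_upwards [Ioo_mem_nhdsGT h2] with s hs
    rw [curve_eq F hT w (h1.trans hs.1.le) hs.2, max_eq_left (by linarith [hs.1])]
  · intro t ht
    -- the index `i` with `i T < t ≤ (i + 1) T`
    have hpos : 0 < t / T := div_pos ht.1 hT
    have hceil : 1 ≤ ⌈t / T⌉₊ := Nat.one_le_ceil_iff.mpr hpos
    obtain ⟨i, hi⟩ : ∃ i : ℕ, ⌈t / T⌉₊ = i + 1 := ⟨⌈t / T⌉₊ - 1, by omega⟩
    have h1 : (i : ℝ) * T < t := by
      rw [← lt_div_iff₀ hT]
      exact Nat.lt_ceil.mp (by omega)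
    have h2 : t ≤ ((i : ℝ) + 1) * T := by
      rw [← div_le_iff₀ hT]
      have := Nat.le_ceil (t / T)
      rw [hi] at this
      exact_mod_cast this
    refine ⟨F (max (t - i * T) 0) (w i), ?_⟩
    have hc : Tendsto (fun t : ℝ => F (max (t - i * T) 0) (w i)) (𝓝[<] t)
        (𝓝 (F (max (t - i * T) 0) (w i))) :=
      ((curve_cont hF w i).tendsto t).mono_left nhdsWithin_le_nhds
    refine hc.congr' ?_
    filter_upwards [Ioo_mem_nhdsLT h1] with s hs
    rw [curve_eq F hT w hs.1.le (hs.2.trans_le h2), max_eq_left (by linarith [hs.1])]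

theorem backward {F : ℝ → X → X} (hF : IsSemiflow F) {T : ℝ} (hT : 0 < T) (x y : X)
    (h : MapLimitChain (F T) x y) : FlowLimitChain F x y := by
  rw [mapLimitChain_iff] at h
  rw [flowLimitChain_iff]
  obtain ⟨K, hK, h⟩ := h
  set K' : Set X := (fun p : ℝ × X => F (max p.1 0) p.2) '' (Icc (0 : ℝ) T ×ˢ K) with hK'
  have hK'c : IsCompact K' := (isCompact_Icc.prod hK).image (cont_ext hF)
  refine ⟨K', hK'c, fun e he M => ?_⟩
  obtain ⟨ρ, hρ, hu⟩ := unif hF hK T e he
  obtain ⟨m, hm⟩ := exists_nat_ge (1 / T + 1)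
  obtain ⟨ε₀, hε₀, hp⟩ := map_prop hF hT hK m ρ hρ
  obtain ⟨N₀, hN₀⟩ := exists_nat_ge (max M 1 / T)
  obtain ⟨n, hn, w, hw⟩ := h ε₀ hε₀ N₀
  have hnT : max M 1 ≤ n * T := by
    rw [← div_le_iff₀ hT]
    exact hN₀.trans (by exact_mod_cast hn)
  refine ⟨n * T, (le_max_left _ _).trans hnT, curve F T w, (le_max_right _ _).trans hnT,
    curve_piecewise hF hT w n, ?_, ?_, ?_, ?_⟩
  · have := curve_eq F hT w (t := 0) (i := 0) (by simp) (by simpa using hT)
    rw [this]
    simpa [hF.zero] using hw.2.1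
  · have := curve_eq F hT w (t := n * T) (i := n) le_rfl (by linarith)
    rw [this, sub_self, hF.zero]
    exact hw.2.2.1
  · intro t ht
    obtain ⟨h1, h2⟩ := floor_bounds hT ht.1
    rw [curve_eq F hT w h1 h2]
    refine ⟨(t - ⌊t / T⌋₊ * T, w ⌊t / T⌋₊), ⟨⟨by linarith, by linarith⟩, hw.2.2.2.1 _ ?_⟩, ?_⟩
    · have : (⌊t / T⌋₊ : ℝ) * T ≤ n * T := h1.trans ht.2
      exact_mod_cast le_of_mul_le_mul_right this hT
    · simp only
      rw [max_eq_left (by linarith)]
  · intro t₀ t₁ h0 h01 h1n h1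
    obtain ⟨a1, a2⟩ := floor_bounds hT h0
    obtain ⟨b1, b2⟩ := floor_bounds hT (h0.trans h01.le)
    rw [curve_eq F hT w a1 a2, curve_eq F hT w b1 b2]
    set i := ⌊t₀ / T⌋₊ with hi
    set j := ⌊t₁ / T⌋₊ with hj
    have hij : i ≤ j := Nat.floor_le_floor (by gcongr)
    obtain ⟨k, hk⟩ := Nat.exists_eq_add_of_le hij
    have hjn : j ≤ n := by
      have : (j : ℝ) * T ≤ n * T := b1.trans h1n
      exact_mod_cast le_of_mul_le_mul_right this hT
    have hkm : k ≤ m := by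
      have hjr : (j : ℝ) = i + k := by exact_mod_cast hk
      have h3 : (k : ℝ) * T ≤ (1 / T + 1) * T := by
        have h4 : (1 / T + 1) * T = 1 + T := by field_simp
        rw [h4]
        rw [hjr] at b1
        nlinarith
      have h5 : (k : ℝ) ≤ m := (le_of_mul_le_mul_right h3 hT).trans hm
      exact_mod_cast h5
    have hA := hp ε₀ le_rfl n w x y hw k hkm i (by omega)
    rw [← hk] at hA
    have hB := hu (w j) (hw.2.2.2.1 _ hjn) (F (k * T) (w i)) (t₁ - j * T) (t₁ - j * T)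
      (by linarith) (by linarith) (by linarith) hA (by simpa using hρ)
    have hjr : (j : ℝ) = i + k := by exact_mod_cast hk
    have e1 : F (t₁ - t₀) (F (t₀ - i * T) (w i)) = F (t₁ - i * T) (w i) := by
      rw [← hF.add (t₁ - t₀) (t₀ - i * T) (by linarith) (by linarith)]
      congr 1
      ring
    have e2 : F (t₁ - j * T) (F (k * T) (w i)) = F (t₁ - i * T) (w i) := by
      rw [← hF.add (t₁ - j * T) (k * T) (by linarith) (by positivity)]
      congr 1
      rw [hjr]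
      ring
    rw [e1, ← e2]
    exact hB

/-- `G` is a compact global attractor of the (semi)flow `F`. -/
def IsGlobalAttractor (F : ℝ → X → X) (G : Set X) : Prop :=
  IsCompact G ∧ (∀ t : ℝ, 0 ≤ t → F t '' G = G) ∧
    ∀ K : Set X, IsCompact K → ∀ δ > 0, ∃ τ : ℝ, ∀ t ≥ τ, F t '' K ⊆ Metric.thickening δ G

/-- A discontinuous additive function which vanishes at `1` and takes the value `1` at `√2`. -/
lemma exists_additive : ∃ φ : ℝ →ₗ[ℚ] ℚ, φ 1 = 0 ∧ φ (√2) = 1 := by
  have hmem : √2 ∉ Submodule.span ℚ ({1} : Set ℝ) := by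
    intro h
    rw [Submodule.mem_span_singleton] at h
    obtain ⟨q, hq⟩ := h
    refine irrational_sqrt_two ⟨q, ?_⟩
    rw [← hq]
    simp [Rat.smul_def]
  obtain ⟨f, hf, hf'⟩ := Submodule.exists_dual_map_eq_bot_of_notMem hmem inferInstance
  have h1 : f 1 = 0 := by
    have : f 1 ∈ (Submodule.span ℚ ({1} : Set ℝ)).map f :=
      Submodule.mem_map_of_mem (Submodule.mem_span_singleton_self 1)
    rw [hf'] at this
    simpa using this
  refine ⟨(f √2)⁻¹ • f, ?_, ?_⟩
  · simp [h1]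
  · simp [hf]

/-- Without any continuity in the time variable the equivalence fails on the circle. -/
theorem no_time_continuity : ∃ F : ℝ → UnitAddCircle → UnitAddCircle,
    (∀ t : ℝ, 0 ≤ t → Continuous (F t)) ∧ (∀ x, F 0 x = x) ∧
    (∀ s t : ℝ, 0 ≤ s → 0 ≤ t → ∀ x, F (s + t) x = F s (F t x)) ∧ IsGlobalAttractor F univ ∧
    MapLimitChain (F 1) 0 ((1 / 2 : ℝ) : UnitAddCircle) ∧
    ¬ FlowLimitChain F 0 ((1 / 2 : ℝ) : UnitAddCircle) := by
  obtain ⟨φ, h1, h2⟩ := exists_additive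
  set F : ℝ → UnitAddCircle → UnitAddCircle := fun t x => x + (((φ t : ℚ) : ℝ) : UnitAddCircle)
    with hF
  have hsurj : ∀ t : ℝ, F t '' univ = univ := by
    intro t
    rw [image_univ, range_eq_univ]
    intro y
    exact ⟨y - (((φ t : ℚ) : ℝ) : UnitAddCircle), by simp [hF]⟩
  refine ⟨F, fun t _ => by simp only [hF]; fun_prop, fun x => by simp [hF], ?_, ?_, ?_, ?_⟩
  · intro s t _ _ x
    simp only [hF, map_add, Rat.cast_add, AddCircle.coe_add]
    abel
  · refine ⟨isCompact_univ, fun t _ => hsurj t, fun K _ δ hδ => ⟨0, fun t _ x _ => ?_⟩⟩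
    exact Metric.self_subset_thickening hδ _ (mem_univ x)
  · rw [mapLimitChain_iff]
    refine ⟨univ, isCompact_univ, fun ε hε M => ?_⟩
    obtain ⟨n, hn⟩ := exists_nat_gt (max (M : ℝ) (max 1 (1 / ε)))
    have hn1 : (1 : ℝ) < n := ((le_max_left _ _).trans (le_max_right _ _)).trans_lt hn
    have hn2 : 1 / ε < n := ((le_max_right _ _).trans (le_max_right _ _)).trans_lt hn
    have hn3 : (M : ℝ) < n := (le_max_left _ _).trans_lt hn
    have hn0 : (0 : ℝ) < n := by linarith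
    refine ⟨n, by exact_mod_cast hn3.le, fun i => (((i : ℝ) / (2 * n) : ℝ) : UnitAddCircle),
      by exact_mod_cast hn1.le, by simp, ?_, fun _ _ => mem_univ _, ?_⟩
    · have : (n : ℝ) / (2 * n) = 1 / 2 := by field_simp
      simp only [this]
    · intro i _
      have h3 : F 1 (((i : ℝ) / (2 * n) : ℝ) : UnitAddCircle)
          = (((i : ℝ) / (2 * n) : ℝ) : UnitAddCircle) := by simp [hF, h1]
      simp only [h3]
      rw [dist_eq_norm, ← AddCircle.coe_sub, UnitAddCircle.norm_eq]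
      refine (round_le _ 0).trans_lt ?_
      have h4 : (i : ℝ) / (2 * n) - ((i + 1 : ℕ) : ℝ) / (2 * n) - ((0 : ℤ) : ℝ) = -(1 / (2 * n)) := by
        push_cast; field_simp; ring
      rw [h4, abs_neg, abs_of_pos (by positivity), div_lt_iff₀ (by positivity)]
      rw [div_lt_iff₀ hε] at hn2
      nlinarith
  · rintro ⟨K, -, τ, -, h⟩
    obtain ⟨z, hz⟩ := h (1 / 8) (by norm_num)
    obtain ⟨l, hl⟩ := hz.2.1.2.1 0 ⟨le_rfl, by linarith [hz.1]⟩
    have hev : ∀ᶠ t in 𝓝[>] (0 : ℝ), dist (z t) l < 1 / 8 :=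
      hl (Metric.ball_mem_nhds l (by norm_num))
    obtain ⟨δ, hδ, hδz⟩ := (mem_nhdsGT_iff_exists_Ioo_subset).mp hev
    have hδ0 : (0 : ℝ) < δ := hδ
    set δ' := min δ 1 with hδ'
    have hδ'0 : 0 < δ' := lt_min hδ0 one_pos
    obtain ⟨r, hr1, hr2⟩ := exists_rat_btwn (show -(√2 / 2) < -(√2 / 2) + δ' / 2 by linarith)
    set s : ℝ := √2 / 2 + r with hs
    have hs0 : 0 < s := by linarith
    have hs1 : s < δ' / 2 := by linarith
    have hφs : φ s = 1 / 2 := by
      have : s = (1 / 2 : ℚ) • √2 + r • (1 : ℝ) := by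
        rw [hs, Rat.smul_def, Rat.smul_def]
        push_cast
        ring
      rw [this, map_add, map_smul, map_smul, h1, h2]
      simp
    have hle1 : δ' ≤ 1 := min_le_right _ _
    have hleδ : δ' ≤ δ := min_le_left _ _
    have hτ1 := hz.1
    have hA := hz.2.2.2.2.2 (δ' / 2) (δ' / 2 + s) (by linarith) (by linarith) (by linarith)
      (by linarith)
    have hB : dist (z (δ' / 2)) l < 1 / 8 := hδz ⟨by linarith, by linarith⟩
    have hC : dist (z (δ' / 2 + s)) l < 1 / 8 := hδz ⟨by linarith, by linarith⟩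
    have h5 : δ' / 2 + s - δ' / 2 = s := by ring
    rw [h5] at hA
    have hD : dist (F s (z (δ' / 2))) (z (δ' / 2)) = 1 / 2 := by
      rw [dist_eq_norm]
      simp only [hF, hφs]
      rw [add_sub_cancel_left, UnitAddCircle.norm_eq]
      norm_num
    have h6 : dist (F s (z (δ' / 2))) (z (δ' / 2)) ≤ dist (F s (z (δ' / 2))) (z (δ' / 2 + s)) +
        (dist (z (δ' / 2 + s)) l + dist (z (δ' / 2)) l) := by
      refine (dist_triangle _ (z (δ' / 2 + s)) _).trans ?_
      gcongr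
      rw [dist_comm (z (δ' / 2)) l]
      exact dist_triangle _ _ _
    rw [hD] at h6
    linarith

universe u

/-- (1) For every jointly continuous semiflow `F` on a metric space and every `T > 0`, the limit
chain points of `x` for `F` are the limit chain points of `x` for the time-`T` map.
(2) If one only assumes that each single map `F t` is continuous, this fails, on the circle. -/
theorem result :
    (∀ (X : Type u) [MetricSpace X] (F : ℝ → X → X), IsSemiflow F → ∀ T : ℝ, 0 < T →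
      ∀ x y : X, FlowLimitChain F x y ↔ MapLimitChain (F T) x y) ∧
    (∃ F : ℝ → UnitAddCircle → UnitAddCircle,
      (∀ t : ℝ, 0 ≤ t → Continuous (F t)) ∧ (∀ x, F 0 x = x) ∧
      (∀ s t : ℝ, 0 ≤ s → 0 ≤ t → ∀ x, F (s + t) x = F s (F t x)) ∧ IsGlobalAttractor F univ ∧
      MapLimitChain (F 1) 0 ((1 / 2 : ℝ) : UnitAddCircle) ∧
      ¬ FlowLimitChain F 0 ((1 / 2 : ℝ) : UnitAddCircle)) :=
  ⟨fun _ _ _ hF _ hT x y => ⟨forward hF hT x y, backward hF hT x y⟩, no_time_continuity⟩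

end Pool.Agent.Results.MP_f2fc76_an.TimeTMap
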